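import Pool.Agent.W785.FD.Stms

set_option autoImplicit false
set_option linter.unusedSectionVars false

open MeasureTheory Metric Set Filter
open scoped ENNReal NNReal Topology
open Pool.Agent.W785.FD

namespace Pool.Agent.W806.FD.Ker

/-- clamping to the unit interval -/
noncomputable def clamp (x : ℝ) : ℝ := max 0 (min 1 x)

theorem clamp_nonneg (x : ℝ) : 0 ≤ clamp x := le_max_left _ _

theorem clamp_le_one (x : ℝ) : clamp x ≤ 1 := max_le zero_le_one (min_le_left _ _)

theorem clamp_lip (x y : ℝ) : |clamp x - clamp y| ≤ |x - y| := by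
  have h1 : |max 0 (min 1 x) - max 0 (min 1 y)| ≤ |min 1 x - min 1 y| := by
    have := abs_max_sub_max_le_max 0 (min 1 x) 0 (min 1 y)
    simpa using this
  have h2 : |min 1 x - min 1 y| ≤ |x - y| := by
    have := abs_min_sub_min_le_max 1 x 1 y
    simpa using this
  exact h1.trans h2

theorem clamp_cont : Continuous clamp := by
  unfold clamp
  fun_prop

theorem clamp_of_nonpos {x : ℝ} (h : x ≤ 0) : clamp x = 0 := by
  unfold clamp
  rw [min_eq_right (by linarith), max_eq_left h]

theorem clamp_of_one_le {x : ℝ} (h : 1 ≤ x) : clamp x = 1 := by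
  unfold clamp
  rw [min_eq_left h, max_eq_right zero_le_one]

section
variable {X : Type*} [MetricSpace X]

/-- the kernel -/
noncomputable def kf (ρ : ℝ) (z w : X) : ℝ := clamp (2 - dist z w / ρ)

theorem kf_cont (ρ : ℝ) (z : X) : Continuous (kf ρ z) := by
  unfold kf
  exact clamp_cont.comp (by fun_prop)

theorem kf_zero {ρ : ℝ} (hρ : 0 < ρ) {z w : X} (h : w ∉ ball z (2 * ρ)) : kf ρ z w = 0 := by
  apply clamp_of_nonpos
  rw [mem_ball, not_lt, dist_comm] at h
  have : 2 ≤ dist z w / ρ := by rw [le_div_iff₀ hρ]; exact h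
  linarith

theorem kf_one {ρ : ℝ} (hρ : 0 < ρ) {z w : X} (h : w ∈ ball z ρ) : kf ρ z w = 1 := by
  apply clamp_of_one_le
  rw [mem_ball, dist_comm] at h
  have : dist z w / ρ ≤ 1 := by rw [div_le_one hρ]; exact h.le
  linarith

theorem kf_lip {ρ : ℝ} (hρ : 0 < ρ) (z z' w : X) : |kf ρ z w - kf ρ z' w| ≤ dist z z' / ρ := by
  refine (clamp_lip _ _).trans ?_
  have h1 : (2 - dist z w / ρ) - (2 - dist z' w / ρ) = (dist z' w - dist z w) / ρ := by ring
  rw [h1, abs_div, abs_of_pos hρ]
  gcongr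
  have h2 := abs_dist_sub_le z' z w
  rwa [dist_comm z' z] at h2

end

section
variable {X : Type*} [MetricSpace X] [MeasurableSpace X] [BorelSpace X]

theorem kf_int {ρ : ℝ} (hρ : 0 < ρ) (ν : Measure X) (hν : ∀ z r, ν (ball z r) < ∞) (z : X) :
    Integrable (kf ρ z) ν := by
  have h1 : Integrable ((ball z (2 * ρ)).indicator (fun _ => (1 : ℝ))) ν := by
    rw [integrable_indicator_iff measurableSet_ball]
    exact integrableOn_const (hν z _).ne
  refine h1.mono' (kf_cont ρ z).measurable.aestronglyMeasurable (Eventually.of_forall fun w => ?_)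
  rw [Real.norm_eq_abs, abs_of_nonneg (show 0 ≤ kf ρ z w from clamp_nonneg _)]
  by_cases h : w ∈ ball z (2 * ρ)
  · rw [indicator_of_mem h]
    exact clamp_le_one _
  · rw [indicator_of_notMem h, kf_zero hρ h]

theorem kf_upper {ρ : ℝ} (hρ : 0 < ρ) (ν : Measure X) (hν : ∀ z r, ν (ball z r) < ∞) (z : X) :
    ∫ w, kf ρ z w ∂ν ≤ ν.real (ball z (2 * ρ)) := by
  have h1 : Integrable ((ball z (2 * ρ)).indicator (fun _ => (1 : ℝ))) ν := by
    rw [integrable_indicator_iff measurableSet_ball]
    exact integrableOn_const (hν z _).ne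
  calc ∫ w, kf ρ z w ∂ν ≤ ∫ w, (ball z (2 * ρ)).indicator (fun _ => (1 : ℝ)) w ∂ν := by
        apply integral_mono (kf_int hρ ν hν z) h1
        intro w
        by_cases h : w ∈ ball z (2 * ρ)
        · simp only [indicator_of_mem h]
          exact clamp_le_one _
        · simp only [indicator_of_notMem h]
          rw [kf_zero hρ h]
    _ = ν.real (ball z (2 * ρ)) := by
        rw [integral_indicator_const _ measurableSet_ball]
        simp

theorem kf_lower {ρ : ℝ} (hρ : 0 < ρ) (ν : Measure X) (hν : ∀ z r, ν (ball z r) < ∞) (z : X) :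
    ν.real (ball z ρ) ≤ ∫ w, kf ρ z w ∂ν := by
  have h1 : Integrable ((ball z ρ).indicator (fun _ => (1 : ℝ))) ν := by
    rw [integrable_indicator_iff measurableSet_ball]
    exact integrableOn_const (hν z _).ne
  calc ν.real (ball z ρ) = ∫ w, (ball z ρ).indicator (fun _ => (1 : ℝ)) w ∂ν := by
        rw [integral_indicator_const _ measurableSet_ball]
        simp
    _ ≤ ∫ w, kf ρ z w ∂ν := by
        apply integral_mono h1 (kf_int hρ ν hν z)
        intro w
        by_cases h : w ∈ ball z ρ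
        · simp only [indicator_of_mem h]
          rw [kf_one hρ h]
        · simp only [indicator_of_notMem h]
          exact clamp_nonneg _

theorem kf_nonneg (ρ : ℝ) (ν : Measure X) (z : X) : 0 ≤ ∫ w, kf ρ z w ∂ν :=
  integral_nonneg fun _ => clamp_nonneg _

theorem kf_diff {ρ : ℝ} (hρ : 0 < ρ) (ν : Measure X) (hν : ∀ z r, ν (ball z r) < ∞) (z z' : X)
    (hd : dist z z' ≤ ρ) :
    |∫ w, kf ρ z w ∂ν - ∫ w, kf ρ z' w ∂ν| ≤ dist z z' / ρ * ν.real (ball z (4 * ρ)) := by
  have h1 : Integrable ((ball z (4 * ρ)).indicator (fun _ => dist z z' / ρ)) ν := by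
    rw [integrable_indicator_iff measurableSet_ball]
    exact integrableOn_const (hν z _).ne
  rw [← integral_sub (kf_int hρ ν hν z) (kf_int hρ ν hν z')]
  calc |∫ w, (kf ρ z w - kf ρ z' w) ∂ν| ≤ ∫ w, |kf ρ z w - kf ρ z' w| ∂ν :=
        abs_integral_le_integral_abs
    _ ≤ ∫ w, (ball z (4 * ρ)).indicator (fun _ => dist z z' / ρ) w ∂ν := by
        apply integral_mono ((kf_int hρ ν hν z).sub (kf_int hρ ν hν z')).abs h1
        intro w
        by_cases h : w ∈ ball z (4 * ρ)
        · simp only [indicator_of_mem h]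
          exact kf_lip hρ z z' w
        · simp only [indicator_of_notMem h]
          have e1 : w ∉ ball z (2 * ρ) := fun h' => h (ball_subset_ball (by linarith) h')
          have e2 : w ∉ ball z' (2 * ρ) := by
            intro h'
            apply h
            rw [mem_ball] at h' ⊢
            have := dist_triangle w z' z
            rw [dist_comm z' z] at this
            linarith
          simp [kf_zero hρ e1, kf_zero hρ e2]
    _ = dist z z' / ρ * ν.real (ball z (4 * ρ)) := by
        rw [integral_indicator_const _ measurableSet_ball, smul_eq_mul, mul_comm]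

theorem int_const (c : Crv X) (a : ℝ≥0∞) : c.int (fun _ => a) = a * ENNReal.ofReal c.l := by
  unfold Crv.int
  rw [lintegral_const, Measure.restrict_apply MeasurableSet.univ, univ_inter, Real.volume_Icc,
    sub_zero]

theorem ug_lip (f : X → ℝ) (L : ℝ) (hL : 0 ≤ L) (hf : ∀ x y, |f x - f y| ≤ L * dist x y) :
    UG f (fun _ => ENNReal.ofReal L) := by
  refine ⟨measurable_const, fun c => ?_⟩
  unfold CrvIneq
  rw [int_const, ← ENNReal.ofReal_mul hL]
  apply ENNReal.ofReal_le_ofReal
  refine (hf _ _).trans ?_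
  gcongr
  have h1 := c.lip.dist_le_mul 0 c.l
  rw [Real.dist_eq, zero_sub, abs_neg, abs_of_nonneg c.nonneg] at h1
  simpa using h1

theorem small_of_dens (μ : Measure X) (D : ℝ) (hD : Dbl μ D) {ρ : ℝ} (hρ : 0 < ρ) (W : Set X)
    (y : X) (hy : dens μ W y (2 * ρ) < ENNReal.ofReal (1 / (3 * D))) :
    (∫ w, kf ρ y w ∂(μ.restrict W)) / (∫ w, kf ρ y w ∂μ) < 1 / 3 := by
  have hD0 : 0 < D := by linarith [hD.one_le]
  have hμ : ∀ z r, μ (ball z r) < ∞ := hD.fin
  have hν : ∀ z r, (μ.restrict W) (ball z r) < ∞ := fun z r =>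
    (Measure.restrict_apply_le _ _).trans_lt (hμ z r)
  have h1 := kf_upper hρ (μ.restrict W) hν y
  have h2 := kf_lower hρ μ hμ y
  have hp : 0 < μ.real (ball y ρ) := ENNReal.toReal_pos (hD.pos y ρ hρ).ne' (hμ y ρ).ne
  have hp2 : 0 < μ.real (ball y (2 * ρ)) :=
    ENNReal.toReal_pos (hD.pos y _ (by positivity)).ne' (hμ y _).ne
  have hdb : μ.real (ball y (2 * ρ)) ≤ D * μ.real (ball y ρ) := by
    have h1 := ENNReal.toReal_mono (ENNReal.mul_lt_top ENNReal.ofReal_lt_top (hμ y ρ)).ne
      (hD.dbl y ρ hρ)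
    rwa [ENNReal.toReal_mul, ENNReal.toReal_ofReal hD0.le] at h1
  have h3 : (μ.restrict W).real (ball y (2 * ρ)) = μ.real (W ∩ ball y (2 * ρ)) := by
    unfold Measure.real
    rw [Measure.restrict_apply measurableSet_ball, inter_comm]
  rw [h3] at h1
  have h4 : μ.real (W ∩ ball y (2 * ρ)) / μ.real (ball y (2 * ρ)) < 1 / (3 * D) := by
    have h5 := (ENNReal.toReal_lt_toReal (ne_top_of_lt hy) ENNReal.ofReal_ne_top).2 hy
    rw [ENNReal.toReal_ofReal (by positivity)] at h5
    unfold dens at h5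
    rwa [ENNReal.toReal_div] at h5
  rw [div_lt_iff₀ hp2] at h4
  have hM : 0 < ∫ w, kf ρ y w ∂μ := lt_of_lt_of_le hp h2
  rw [div_lt_iff₀ hM]
  calc ∫ w, kf ρ y w ∂(μ.restrict W) ≤ μ.real (W ∩ ball y (2 * ρ)) := h1
    _ < 1 / (3 * D) * μ.real (ball y (2 * ρ)) := h4
    _ ≤ 1 / (3 * D) * (D * μ.real (ball y ρ)) := by gcongr
    _ = 1 / 3 * μ.real (ball y ρ) := by field_simp
    _ ≤ 1 / 3 * ∫ w, kf ρ y w ∂μ := by gcongr

theorem main {X : Type*} [MetricSpace X] [ProperSpace X] [MeasurableSpace X] [BorelSpace X]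
    (μ : Measure X) (D : ℝ) (hD : Dbl μ D) (h : S_LOCS X) : S_KER μ D := by
  intro V hV ρ hρ
  have hD0 : 0 < D := by linarith [hD.one_le]
  have hμ : ∀ z r, μ (ball z r) < ∞ := hD.fin
  have hν : ∀ W : Set X, ∀ z r, (μ.restrict W) (ball z r) < ∞ := fun W z r =>
    (Measure.restrict_apply_le _ _).trans_lt (hμ z r)
  -- doubling for real values
  have hdb : ∀ z r, 0 < r → μ.real (ball z (2 * r)) ≤ D * μ.real (ball z r) := by
    intro z r hr
    have h1 := ENNReal.toReal_mono (ENNReal.mul_lt_top ENNReal.ofReal_lt_top (hμ z r)).ne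
      (hD.dbl z r hr)
    rwa [ENNReal.toReal_mul, ENNReal.toReal_ofReal hD0.le] at h1
  set M : X → ℝ := fun z => ∫ w, kf ρ z w ∂μ with hM
  set N : Set X → X → ℝ := fun W z => ∫ w, kf ρ z w ∂(μ.restrict W) with hN
  have hMpos : ∀ z, 0 < M z := by
    intro z
    refine lt_of_lt_of_le ?_ (kf_lower hρ μ hμ z)
    exact ENNReal.toReal_pos (hD.pos z ρ hρ).ne' (hμ z ρ).ne
  have hN0 : ∀ W z, 0 ≤ N W z := fun W z => kf_nonneg ρ _ z
  have hsum : ∀ z, N V z + N Vᶜ z = M z := fun z =>
    integral_add_compl₀ hV (kf_int hρ μ hμ z)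
  have hNM : ∀ z, N V z ≤ M z := fun z => by linarith [hsum z, hN0 Vᶜ z]
  set A : X → ℝ := fun z => N V z / M z with hA
  have hA0 : ∀ z, 0 ≤ A z := fun z => div_nonneg (hN0 V z) (hMpos z).le
  have hA1 : ∀ z, A z ≤ 1 := fun z => (div_le_one (hMpos z)).2 (hNM z)
  have h4 : ∀ z, μ.real (ball z (4 * ρ)) ≤ D ^ 2 * M z := by
    intro z
    have h1 := hdb z (2 * ρ) (by positivity)
    have h2 := hdb z ρ hρ
    have h3 := kf_lower hρ μ hμ z
    rw [show 2 * (2 * ρ) = 4 * ρ by ring] at h1
    calc μ.real (ball z (4 * ρ)) ≤ D * μ.real (ball z (2 * ρ)) := h1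
      _ ≤ D * (D * μ.real (ball z ρ)) := by gcongr
      _ ≤ D * (D * M z) := by gcongr
      _ = D ^ 2 * M z := by ring
  have hdM : ∀ z z', dist z z' ≤ ρ → |M z - M z'| ≤ dist z z' / ρ * (D ^ 2 * M z) := by
    intro z z' hd
    refine (kf_diff hρ μ hμ z z' hd).trans ?_
    have := h4 z
    gcongr
  have hdN : ∀ z z', dist z z' ≤ ρ → |N V z - N V z'| ≤ dist z z' / ρ * (D ^ 2 * M z) := by
    intro z z' hd
    refine (kf_diff hρ _ (hν V) z z' hd).trans ?_
    have h1 := h4 z
    have h2 : (μ.restrict V).real (ball z (4 * ρ)) ≤ μ.real (ball z (4 * ρ)) :=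
      ENNReal.toReal_mono (hμ z _).ne (Measure.restrict_apply_le _ _)
    have h3 := h2.trans h1
    gcongr
  have hAl : ∀ z z', |A z - A z'| ≤ 2 * D ^ 2 / ρ * dist z z' := by
    intro z z'
    rcases le_total (dist z z') ρ with hd | hd
    · have e1 : A z - A z' = (N V z - N V z') / M z + A z' * ((M z' - M z) / M z) := by
        simp only [hA]
        have := (hMpos z).ne'
        have := (hMpos z').ne'
        field_simp
        ring
      have hz := hMpos z
      have e2 : |(N V z - N V z') / M z| ≤ dist z z' / ρ * D ^ 2 := by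
        rw [abs_div, abs_of_pos hz, div_le_iff₀ hz]
        calc |N V z - N V z'| ≤ dist z z' / ρ * (D ^ 2 * M z) := hdN z z' hd
          _ = _ := by ring
      have e3 : |(M z' - M z) / M z| ≤ dist z z' / ρ * D ^ 2 := by
        rw [abs_div, abs_of_pos hz, div_le_iff₀ hz, abs_sub_comm]
        calc |M z - M z'| ≤ dist z z' / ρ * (D ^ 2 * M z) := hdM z z' hd
          _ = _ := by ring
      have e4 : |A z' * ((M z' - M z) / M z)| ≤ dist z z' / ρ * D ^ 2 := by
        rw [abs_mul, abs_of_nonneg (hA0 z')]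
        calc A z' * |(M z' - M z) / M z| ≤ 1 * (dist z z' / ρ * D ^ 2) := by
              apply mul_le_mul (hA1 z') e3 (abs_nonneg _) zero_le_one
          _ = _ := one_mul _
      rw [e1]
      calc |(N V z - N V z') / M z + A z' * ((M z' - M z) / M z)| ≤
          |(N V z - N V z') / M z| + |A z' * ((M z' - M z) / M z)| := abs_add_le _ _
        _ ≤ dist z z' / ρ * D ^ 2 + dist z z' / ρ * D ^ 2 := add_le_add e2 e4
        _ = 2 * D ^ 2 / ρ * dist z z' := by ring
    · have e1 : |A z - A z'| ≤ 1 := by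
        rw [abs_le]
        constructor <;> linarith [hA0 z, hA1 z, hA0 z', hA1 z']
      have e2 : 1 ≤ dist z z' / ρ := by rwa [one_le_div hρ]
      have e3 : 1 ≤ 2 * D ^ 2 := by nlinarith [hD.one_le]
      calc |A z - A z'| ≤ 1 * 1 := by linarith
        _ ≤ (2 * D ^ 2) * (dist z z' / ρ) := by gcongr
        _ = 2 * D ^ 2 / ρ * dist z z' := by ring
  set H : X → ℝ := fun z => clamp (3 * A z - 1) with hH
  have hHl : ∀ z z', |H z - H z'| ≤ 6 * D ^ 2 / ρ * dist z z' := by
    intro z z'
    refine (clamp_lip _ _).trans ?_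
    have e1 : (3 * A z - 1) - (3 * A z' - 1) = 3 * (A z - A z') := by ring
    rw [e1, abs_mul, abs_of_pos (by norm_num : (0 : ℝ) < 3)]
    calc 3 * |A z - A z'| ≤ 3 * (2 * D ^ 2 / ρ * dist z z') := by
          have := hAl z z'
          linarith
      _ = _ := by ring
  have hL0 : 0 ≤ 6 * D ^ 2 / ρ := by positivity
  have hHc : Continuous H := by
    have : LipschitzWith (Real.toNNReal (6 * D ^ 2 / ρ)) H := by
      apply LipschitzWith.of_dist_le_mul
      intro z z'
      rw [Real.dist_eq, Real.coe_toNNReal _ hL0]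
      exact hHl z z'
    exact this.continuous
  refine ⟨H, hHc, fun y => clamp_nonneg _, fun y => clamp_le_one _, ?_, ?_, ?_⟩
  · -- the upper gradient
    have u1 : UG H (fun _ => ENNReal.ofReal (6 * D ^ 2 / ρ)) := ug_lip H _ hL0 hHl
    have f1 : ∀ c : Crv X, c.int (fun _ => ENNReal.ofReal (6 * D ^ 2 / ρ)) < ∞ := by
      intro c
      rw [int_const]
      exact ENNReal.mul_lt_top ENNReal.ofReal_lt_top ENNReal.ofReal_lt_top
    have m1 : MeasurableSet {y | H y ≠ 0} := (isOpen_ne_fun hHc continuous_const).measurableSet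
    have m2 : MeasurableSet {y | H y ≠ 1} := (isOpen_ne_fun hHc continuous_const).measurableSet
    have u2 := h H _ u1 f1 {y | H y ≠ 0} m1 subset_rfl
    have f2 : ∀ c : Crv X, c.int ({y | H y ≠ 0}.indicator
        (fun _ => ENNReal.ofReal (6 * D ^ 2 / ρ))) < ∞ := by
      intro c
      refine lt_of_le_of_lt ?_ (f1 c)
      unfold Crv.int
      apply lintegral_mono
      intro t
      exact indicator_le_self _ _ _
    have u3 : UG (fun y => 1 - H y) ({y | H y ≠ 0}.indicator
        (fun _ => ENNReal.ofReal (6 * D ^ 2 / ρ))) := by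
      refine ⟨u2.1, fun c => ?_⟩
      have := u2.2 c
      unfold CrvIneq at this ⊢
      rw [show (1 - H (c.γ 0)) - (1 - H (c.γ c.l)) = -(H (c.γ 0) - H (c.γ c.l)) by ring, abs_neg]
      exact this
    have u4 := h _ _ u3 f2 {y | H y ≠ 1} m2 (by
      intro y hy
      simp only [mem_ofPred_eq] at hy ⊢
      intro h'
      apply hy
      rw [h']
      ring)
    have e : ({y | H y ≠ 1}.indicator ({y | H y ≠ 0}.indicator
        (fun _ : X => ENNReal.ofReal (6 * D ^ 2 / ρ)))) =
        ({y | H y ≠ 0 ∧ H y ≠ 1}.indicator (fun _ => ENNReal.ofReal (6 * D ^ 2 / ρ))) := by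
      rw [indicator_indicator]
      congr 1
      ext y
      simp only [mem_inter_iff, mem_ofPred_eq]
      tauto
    rw [e] at u4
    refine ⟨u4.1, fun c => ?_⟩
    have := u4.2 c
    unfold CrvIneq at this ⊢
    rw [show (1 - H (c.γ 0)) - (1 - H (c.γ c.l)) = -(H (c.γ 0) - H (c.γ c.l)) by ring,
      abs_neg] at this
    exact this
  all_goals
    intro y hy
  · have hlt := small_of_dens μ D hD hρ V y hy
    apply clamp_of_nonpos
    have : A y < 1 / 3 := hlt
    linarith
  · have hlt := small_of_dens μ D hD hρ Vᶜ y hy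
    apply clamp_of_one_le
    have e1 : A y = 1 - N Vᶜ y / M y := by
      simp only [hA]
      have := (hMpos y).ne'
      rw [← hsum y]
      rw [← hsum y] at this
      field_simp
      ring
    have : N Vᶜ y / M y < 1 / 3 := hlt
    linarith

end
end Pool.Agent.W806.FD.Ker
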